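import Pool.Agent.H98.AO.BStmts
import Pool.Agent.H65.CC.ENUM
import Pool.Agent.H93.MA.CBT
import Pool.Agent.H35.MA.ACF

/-!
Project AO, module HES: the square of an aleph, by the canonical well-order of the pairs.
-/

set_option linter.unusedVariables false
set_option linter.unusedSectionVars false
set_option synthInstance.maxSize 100000

namespace AO

open SW

section
variable {M : Type} [SetStr M] [ZF M]

theorem hes_rel {z x : M} {R : M → M → Prop} (hR : Cl2 R)
    (h1 : ∀ y, E y x → ∃ k, E k z ∧ R k y)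
    (h2 : ∀ k y y', E k z → E y x → E y' x → R k y → R k y' → y = y') : Img z x := by
  have hf : Fn1 (fun k => the (fun y => E y x ∧ R k y)) := inferInstance
  refine ⟨gr z (fun k => the (fun y => E y x ∧ R k y)), fun y hy => ?_⟩
  obtain ⟨k, hk, hky⟩ := h1 y hy
  refine ⟨k, hk, ?_⟩
  rw [app_gr hf hk]
  exact (the_eq (p := fun y => E y x ∧ R k y) ⟨hy, hky⟩
    fun w hw => h2 k w y hk hw.1 hy hw.2 hky).symm

theorem hes_inj {z x y : M} (f : M → M) (hf : Fn1 f) (hy : Img z y)
    (hm : ∀ t, E t x → E (f t) y)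
    (hi : ∀ t t', E t x → E t' x → f t = f t' → t = t') : Img z x := by
  obtain ⟨h, hh⟩ := hy
  refine hes_rel (R := fun k t => f t = app h k) inferInstance ?_ ?_
  · intro t ht
    obtain ⟨k, hk, e⟩ := hh (f t) (hm t ht)
    exact ⟨k, hk, e⟩
  · intro k t t' _ ht ht' e e'
    exact hi t t' ht ht' (e.trans e'.symm)

theorem hes_sub {z x y : M} (h : Sub x y) (hy : Img z y) : Img z x := by
  obtain ⟨f, hf⟩ := hy
  exact ⟨f, fun t ht => hf t (h t ht)⟩

theorem hes_mono {z z' x : M} (h : Sub z z') (hx : Img z x) : Img z' x := by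
  obtain ⟨f, hf⟩ := hx
  refine ⟨f, fun t ht => ?_⟩
  obtain ⟨k, hk, e⟩ := hf t ht
  exact ⟨k, h k hk, e⟩

theorem hes_prod {v x y : M} (hv : Img v (prod v v)) (hx : Img v x) (hy : Img v y) :
    Img v (prod x y) := by
  obtain ⟨k, hk⟩ := hv
  obtain ⟨f, hf⟩ := hx
  obtain ⟨g, hg⟩ := hy
  have hF : Fn1 (fun i : M => opair (app f (CC.fst (app k i))) (app g (CC.snd (app k i)))) :=
    inferInstance
  refine ⟨gr v (fun i => opair (app f (CC.fst (app k i))) (app g (CC.snd (app k i)))),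
    fun t ht => ?_⟩
  obtain ⟨a, b, ha, hb, rfl⟩ := mem_prod'.1 ht
  obtain ⟨i, hi, ea⟩ := hf a ha
  obtain ⟨j, hj, eb⟩ := hg b hb
  obtain ⟨l, hl, e⟩ := hk (opair i j) (mem_prod.2 ⟨hi, hj⟩)
  refine ⟨l, hl, ?_⟩
  rw [app_gr hF hl, ← e, CC.fst_opair, CC.snd_opair, ea, eb]

/-- the maximum of the components -/
noncomputable def hesM (p : M) : M := bun (CC.fst p) (CC.snd p)

theorem hesM_df : Fn1 (fun p : M => hesM p) := by unfold hesM; infer_instance

instance {n : ℕ} {t : (Fin n → M) → M} [ht : DfT t] : DfT (fun v => hesM (t v)) :=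
  hesM_df.comp1 ht

/-- the canonical order of pairs -/
def hesL (p q : M) : Prop := E (hesM p) (hesM q) ∨ (hesM p = hesM q ∧
  (E (CC.fst p) (CC.fst q) ∨ (CC.fst p = CC.fst q ∧ E (CC.snd p) (CC.snd q))))

theorem hesL_df : Cl2 (fun p q : M => hesL p q) := by unfold hesL; infer_instance

instance {n : ℕ} {t s : (Fin n → M) → M} [ht : DfT t] [hs : DfT s] :
    Df (fun v => hesL (t v) (s v)) := hesL_df.comp2 ht hs

/-- the least element -/
noncomputable def hesC (Z : M) : M := the (fun p => E p Z ∧ ∀ q, E q Z → ¬ hesL q p)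

theorem hesC_df : Fn1 (fun p : M => hesC p) := by unfold hesC; infer_instance

instance {n : ℕ} {t : (Fin n → M) → M} [ht : DfT t] : DfT (fun v => hesC (t v)) :=
  hesC_df.comp1 ht

theorem hes_bun {a b : M} (ha : Ord a) (hb : Ord b) : bun a b = a ∨ bun a b = b := by
  rcases ha.tri hb with h | rfl | h
  · right
    refine ext fun z => ?_
    simp only [mem_bun]
    exact ⟨fun hz => hz.elim (fun h' => hb.trans h h') id, Or.inr⟩
  · left
    refine ext fun z => ?_
    simp only [mem_bun]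
    exact ⟨fun hz => hz.elim id id, Or.inr⟩
  · left
    refine ext fun z => ?_
    simp only [mem_bun]
    exact ⟨fun hz => hz.elim id (fun h' => ha.trans h h'), Or.inl⟩

theorem hes_comp {w p : M} (hw : Ord w) (hp : E p (prod w w)) :
    p = opair (CC.fst p) (CC.snd p) ∧ E (CC.fst p) w ∧ E (CC.snd p) w ∧ E (hesM p) w := by
  obtain ⟨a, b, ha, hb, rfl⟩ := mem_prod'.1 hp
  unfold hesM
  rw [CC.fst_opair, CC.snd_opair]
  refine ⟨rfl, ha, hb, ?_⟩
  rcases hes_bun (hw.mem ha) (hw.mem hb) with h | h <;> rw [h]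
  · exact ha
  · exact hb

theorem hes_lin {w p q : M} (hw : Ord w) (hp : E p (prod w w)) (hq : E q (prod w w)) :
    hesL p q ∨ p = q ∨ hesL q p := by
  obtain ⟨ep, hp1, hp2, hp3⟩ := hes_comp hw hp
  obtain ⟨eq, hq1, hq2, hq3⟩ := hes_comp hw hq
  unfold hesL
  rcases (hw.mem hp3).tri (hw.mem hq3) with h | h | h
  · exact Or.inl (Or.inl h)
  · rcases (hw.mem hp1).tri (hw.mem hq1) with h1 | h1 | h1
    · exact Or.inl (Or.inr ⟨h, Or.inl h1⟩)
    · rcases (hw.mem hp2).tri (hw.mem hq2) with h2 | h2 | h2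
      · exact Or.inl (Or.inr ⟨h, Or.inr ⟨h1, h2⟩⟩)
      · right; left
        rw [ep, eq, h1, h2]
      · exact Or.inr (Or.inr (Or.inr ⟨h.symm, Or.inr ⟨h1.symm, h2⟩⟩))
    · exact Or.inr (Or.inr (Or.inr ⟨h.symm, Or.inl h1⟩))
  · exact Or.inr (Or.inr (Or.inl h))

theorem hes_least {w Z : M} (hw : Ord w) (hZ : Sub Z (prod w w)) (h : ∃ z, E z Z) :
    ∃ p, E p Z ∧ ∀ q, E q Z → ¬ hesL q p := by
  obtain ⟨z, hz⟩ := h
  obtain ⟨m, hm, ⟨p0, hp0, e0⟩, hmin, -⟩ := ord_min (C := fun m : M => ∃ p, E p Z ∧ hesM p = m)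
    inferInstance (hw.mem (hes_comp hw (hZ z hz)).2.2.2) ⟨z, hz, rfl⟩
  obtain ⟨a, ha, ⟨p1, hp1, e1, e1'⟩, hmin1, -⟩ := ord_min
    (C := fun a : M => ∃ p, E p Z ∧ hesM p = m ∧ CC.fst p = a)
    inferInstance (hw.mem (hes_comp hw (hZ p0 hp0)).2.1) ⟨p0, hp0, e0, rfl⟩
  obtain ⟨b, hb, ⟨p2, hp2, e2, e2', e2''⟩, hmin2, -⟩ := ord_min
    (C := fun b : M => ∃ p, E p Z ∧ hesM p = m ∧ CC.fst p = a ∧ CC.snd p = b)
    inferInstance (hw.mem (hes_comp hw (hZ p1 hp1)).2.2.1) ⟨p1, hp1, e1, e1', rfl⟩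
  refine ⟨p2, hp2, fun q hq hl => ?_⟩
  unfold hesL at hl
  rw [e2, e2', e2''] at hl
  rcases hl with h | ⟨h, h1 | ⟨h1, h2⟩⟩
  · exact hmin _ h ⟨q, hq, rfl⟩
  · exact hmin1 _ h1 ⟨q, hq, h, rfl⟩
  · exact hmin2 _ h2 ⟨q, hq, h, h1, rfl⟩

theorem hes_ch {w Z : M} (hw : Ord w) (hZ : Sub Z (prod w w)) (h : ∃ z, E z Z) :
    E (hesC Z) Z ∧ ∀ q, E q Z → ¬ hesL q (hesC Z) := by
  obtain ⟨p, hp, hp'⟩ := hes_least hw hZ h
  refine the_spec (p := fun p => E p Z ∧ ∀ q, E q Z → ¬ hesL q p) ⟨p, ⟨hp, hp'⟩, ?_⟩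
  rintro r ⟨hr, hr'⟩
  rcases hes_lin hw (hZ r hr) (hZ p hp) with h1 | h1 | h1
  · exact absurd h1 (hp' r hr)
  · exact h1
  · exact absurd h1 (hr' p hp)

/-- the main step -/
theorem hes_step {v w : M} (hv : Img v (prod v v)) (hw : Ord w) (hs : ∀ a, E a w → E (suc a) w)
    (hn : ¬ Img v w) (hi : ∀ a, E a w → Img v a) : Img w (prod w w) := by
  obtain ⟨o, f, ho, ⟨hf1, hf2, hf3⟩, hf4⟩ := CC.cc_enum M (prod w w) (fun Z => hesC Z)
    hesC_df (fun Z hZ hne => (hes_ch hw hZ hne).1)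
  have key : ∀ i, E i o → E i w := by
    intro i hi'
    -- the members of `i` are mapped into the square of a member of `w`
    have h1 : E (hesM (app f i)) w := (hes_comp hw (hf1 i hi')).2.2.2
    have h2 : E (suc (hesM (app f i))) w := hs _ h1
    have h3 : Img v (prod (suc (hesM (app f i))) (suc (hesM (app f i)))) :=
      hes_prod hv (hi _ h2) (hi _ h2)
    have h4 : Img v i := by
      refine hes_inj (fun j => app f j) inferInstance h3 ?_ ?_
      · intro j hj
        have hjo : E j o := ho.trans hi' hj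
        obtain ⟨ep, hp1, hp2, hp3⟩ := hes_comp hw (hf1 j hjo)
        -- `f j` is not above `f i`
        have h5 : ¬ hesL (app f i) (app f j) := by
          have h6 : Sub (diff (prod w w) (img j (fun k => app f k))) (prod w w) :=
            fun z hz => (mem_diff.1 hz).1
          have h7 : E (app f i) (diff (prod w w) (img j (fun k => app f k))) := by
            rw [mem_diff]
            refine ⟨hf1 i hi', fun h => ?_⟩
            rw [mem_img] at h
            obtain ⟨k, hk, e⟩ := h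
            have hko : E k o := ho.trans hjo hk
            have e' := hf2 i k hi' hko e
            subst e'
            exact not_mem_cycle hj hk
          have h8 := (hes_ch hw h6 ⟨_, h7⟩).2 _ h7
          rw [hf4 j hjo]
          exact h8
        have h9 : Sub (hesM (app f j)) (hesM (app f i)) := by
          rw [← Ord.not_mem_iff (hw.mem h1) (hw.mem hp3)]
          exact fun h => h5 (Or.inl h)
        have h10 : ∀ u : M, Sub u (hesM (app f j)) → E u w → E u (suc (hesM (app f i))) := by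
          intro u hu huw
          rw [mem_suc]
          exact ((hw.mem huw).sub_iff (hw.mem h1)).1 (fun z hz => h9 z (hu z hz))
        rw [ep]
        rw [mem_prod]
        constructor
        · exact h10 _ (fun z hz => by unfold hesM; rw [mem_bun]; exact Or.inl hz) hp1
        · exact h10 _ (fun z hz => by unfold hesM; rw [mem_bun]; exact Or.inr hz) hp2
      · intro j k hj hk e
        exact hf2 j k (ho.trans hi' hj) (ho.trans hi' hk) e
    by_contra hcon
    rw [Ord.not_mem_iff (ho.mem hi') hw] at hcon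
    exact hn (hes_sub hcon h4)
  refine ⟨f, fun y hy => ?_⟩
  obtain ⟨i, hi', e⟩ := hf3 y hy
  exact ⟨i, key i hi', e⟩

end

theorem hes (h1 : ALFStmt) : HESStmt := by
  intro M _ _ n
  have hA := h1 M
  induction n with
  | zero =>
      intro w hw
      have hw' : w = om := hw
      subst hw'
      obtain ⟨f, hf1, hf2⟩ := (ma_cbt ma_acf M).prod (x := om) (y := om) (ma_cbt ma_acf M).om
        (ma_cbt ma_acf M).om
      refine hes_rel (R := fun k y => E (opair y k) f) inferInstance ?_ ?_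
      · intro y hy
        exact hf1 y hy
      · intro k y y' hk hy hy' e e'
        exact hf2 y y' k hy hy' hk e e'
  | succ n ih =>
      intro w hw
      have hs := hA.suc (n + 1) w
      obtain ⟨ho, v, hv, hnv, hi⟩ := hw
      exact hes_step (ih v hv) ho (fun a ha => hs a ⟨ho, v, hv, hnv, hi⟩ ha) hnv hi

end AO
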